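import Mathlib
import Pool.Agent.W_MP_ae868b_lc.Final

/-!
The measurable edge chromatic number of the Schreier graph of the free part of the shift of the
free group on two generators on `2^F2` with the coin flip measure is `4`.
-/

open MeasureTheory

namespace Pool.Agent.Results.MP_ae868b_lc.EdgeChromaticNumberFour

/-- the free group on two generators -/
abbrev F2 : Type := FreeGroup (Fin 2)

/-- the space of maps from the free group to two points, with the product σ-algebra -/
abbrev Conf : Type := F2 → Bool

/-- the left shift `(g . x)(h) = x(g⁻¹ h)` -/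
def shift (g : F2) (x : Conf) : Conf := fun h => x (g⁻¹ * h)

/-- the coin flip measure: product of the uniform measures on the coordinates -/
noncomputable def coinFlip : Measure Conf :=
  Measure.infinitePi (fun _ : F2 => (PMF.uniformOfFintype Bool).toMeasure)

/-- the free part -/
def freePart : Set Conf := {x | ∀ g : F2, g ≠ 1 → shift g x ≠ x}

/-- the two generators -/
def gens : Set F2 := {FreeGroup.of 0, FreeGroup.of 1}

/-- the Schreier graph: two points of the free part are adjacent iff they are distinct and one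
is obtained from the other by a generator -/
def schreier : SimpleGraph Conf where
  Adj x y := x ∈ freePart ∧ y ∈ freePart ∧ x ≠ y ∧ ∃ γ ∈ gens, y = shift γ x ∨ x = shift γ y
  symm := by
    constructor
    rintro x y ⟨hx, hy, hne, γ, hγ, h⟩
    exact ⟨hy, hx, hne.symm, γ, hγ, h.symm⟩
  loopless := by
    constructor
    rintro x ⟨-, -, h, -⟩
    exact h rfl

/-- a measurable proper edge colouring with `k` colours: there is a conull invariant measurable
subset `Y` of the free part and a colouring of the edges with `k` colours which is proper at the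
points of `Y` and such that for each generator `γ` and colour `i` the set of points `x` of `Y` whose edge
`{x, γ x}` has colour `i` is measurable -/
def HasMeasurableEdgeColouring (k : ℕ) : Prop :=
  ∃ (Y : Set Conf) (c : Sym2 Conf → Fin k),
    Y ⊆ freePart ∧ MeasurableSet Y ∧ coinFlip Yᶜ = 0 ∧ (∀ g : F2, ∀ x ∈ Y, shift g x ∈ Y) ∧
    (∀ x ∈ Y, ∀ y z, schreier.Adj x y → schreier.Adj x z → y ≠ z → c s(x, y) ≠ c s(x, z)) ∧
    (∀ γ ∈ gens, ∀ i : Fin k, MeasurableSet {x | x ∈ Y ∧ c s(x, shift γ x) = i})

namespace Aux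

open Pool.Agent.W_MP_ae868b_lc

theorem shift_mul (g h : F2) (x : Conf) : shift (g * h) x = shift g (shift h x) := by
  funext k
  simp [shift, mul_assoc]

theorem shift_one (x : Conf) : shift 1 x = x := by
  funext k
  simp [shift]

theorem shift_inv (g : F2) (x : Conf) : shift g⁻¹ (shift g x) = x := by
  rw [← shift_mul, inv_mul_cancel, shift_one]

theorem shift_sinv (s : S) (x : Conf) : shift (gen (sinv s)) (shift (gen s) x) = x := by
  rw [gen_sinv, shift_inv]

theorem ne_gen {x : Conf} (hx : x ∈ freePart) {s t : S}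
    (h : shift (gen s) x = shift (gen t) x) : s = t := by
  apply gen_injective
  by_contra hne
  have h1 : ((gen t)⁻¹ * gen s) ≠ 1 := fun h1 => hne (inv_mul_eq_one.1 h1).symm
  apply hx _ h1
  rw [shift_mul, h, shift_inv]

theorem freePart_shift {x : Conf} (hx : x ∈ freePart) (g : F2) : shift g x ∈ freePart := by
  intro h hne heq
  have h1 : g⁻¹ * h * g ≠ 1 := by
    intro h1
    apply hne
    have : h = g * (g⁻¹ * h * g) * g⁻¹ := by group
    rw [this, h1]; group
  apply hx _ h1
  rw [shift_mul, shift_mul, heq, shift_inv]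

theorem adj_gen {x : Conf} (hx : x ∈ freePart) (s : S) :
    schreier.Adj x (shift (gen s) x) := by
  refine ⟨hx, freePart_shift hx _, ?_, ?_⟩
  · exact fun h => hx _ (gen_ne_one s) h.symm
  · obtain ⟨i, b⟩ := s
    have hof : ∀ i : Fin 2, (FreeGroup.of i : F2) ∈ gens := by
      intro i
      fin_cases i
      · exact Or.inl rfl
      · exact Or.inr rfl
    cases b
    · refine ⟨FreeGroup.of i, hof i, Or.inr ?_⟩
      exact (shift_sinv (i, false) x).symm
    · exact ⟨FreeGroup.of i, hof i, Or.inl rfl⟩

theorem exists_gen_of_adj {x y : Conf} (h : schreier.Adj x y) :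
    ∃ s : S, y = shift (gen s) x := by
  obtain ⟨-, -, -, γ, hγ, h⟩ := h
  have hγ' : ∃ i : Fin 2, γ = FreeGroup.of i := by
    rcases hγ with h | h
    · exact ⟨0, h⟩
    · exact ⟨1, h⟩
  obtain ⟨i, rfl⟩ := hγ'
  rcases h with h | h
  · exact ⟨(i, true), h⟩
  · refine ⟨(i, false), ?_⟩
    rw [h]
    exact (shift_sinv (i, true) y).symm

theorem measurableSet_freePart : MeasurableSet (freePart : Set Conf) := by
  have : (freePart : Set Conf) = ⋂ g : F2, {x | g ≠ 1 → shift g x ≠ x} := by
    ext x; simp [freePart]
  rw [this]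
  refine MeasurableSet.iInter fun g => ?_
  by_cases hg : g = 1
  · have : {x : Conf | g ≠ 1 → shift g x ≠ x} = Set.univ := by
      ext x; simp [hg]
    rw [this]; exact MeasurableSet.univ
  · have : {x : Conf | g ≠ 1 → shift g x ≠ x} = (⋂ h : F2, {x : Conf | x (g⁻¹ * h) = x h})ᶜ := by
      ext x
      rw [Set.mem_compl_iff, Set.mem_iInter]
      constructor
      · exact fun h1 h2 => h1 hg (funext h2)
      · exact fun h1 _ h2 => h1 fun h => congrFun h2 h
    rw [this]
    refine (MeasurableSet.iInter fun h => ?_).compl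
    exact measurableSet_eq_fun (measurable_pi_apply _) (measurable_pi_apply _)

/-- the perfect configuration in terms of `Conf` -/
theorem exists_conf : ∃ π : Conf → Bj, Measurable π ∧
    (∀ᵐ x ∂coinFlip, ∀ s, π x s = π (shift (gen s) x) (sinv s)) :=
  exists_perfect_cfg

theorem freePart_ae : ∀ᵐ x ∂coinFlip, x ∈ freePart := ae_free

theorem mp_shift (g : F2) : MeasurePreserving (shift g) coinFlip coinFlip :=
  isPMP_coinCfg.mp g

theorem measurable_label {π : Conf → Bj} (hπ : Measurable π) (s : S) :
    Measurable fun x => π x s :=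
  (measurable_of_finite fun b : Bj => b s).comp hπ

end Aux

open Aux Pool.Agent.W_MP_ae868b_lc in
theorem exists_colouring : HasMeasurableEdgeColouring 4 := by
  classical
  obtain ⟨π, hπ, hc⟩ := exists_conf
  have hm : ∀ g : F2, Measurable (shift g) := fun g => (mp_shift g).measurable
  let G : Set Conf := {x | x ∈ freePart ∧ ∀ s, π x s = π (shift (gen s) x) (sinv s)}
  have hG : MeasurableSet G := by
    have : G = freePart ∩ ⋂ s : S, {x | π x s = π (shift (gen s) x) (sinv s)} := by
      ext x
      rw [Set.mem_inter_iff, Set.mem_iInter]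
      rfl
    rw [this]
    refine measurableSet_freePart.inter (MeasurableSet.iInter fun s => ?_)
    exact measurableSet_eq_fun (measurable_label hπ s)
      ((measurable_label hπ (sinv s)).comp (hm (gen s)))
  have hGae : ∀ᵐ x ∂coinFlip, x ∈ G := by
    filter_upwards [freePart_ae, hc] with x h1 h2 using ⟨h1, h2⟩
  let Y : Set Conf := {x | ∀ g : F2, shift g x ∈ G}
  have hY : MeasurableSet Y := by
    have : Y = ⋂ g : F2, (shift g) ⁻¹' G := by
      ext x
      rw [Set.mem_iInter]
      rfl
    rw [this]
    exact MeasurableSet.iInter fun g => hm g hG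
  have hYae : ∀ᵐ x ∂coinFlip, x ∈ Y := by
    have : ∀ g : F2, ∀ᵐ x ∂coinFlip, shift g x ∈ G :=
      fun g => (mp_shift g).quasiMeasurePreserving.ae hGae
    exact ae_all_iff.2 this
  have hYG : ∀ x ∈ Y, x ∈ G := fun x hx => by
    have := hx 1
    rwa [shift_one] at this
  have hYs : ∀ g : F2, ∀ x ∈ Y, shift g x ∈ Y := by
    intro g x hx h
    rw [← shift_mul]; exact hx _
  have key : ∃ c : Sym2 Conf → Fin 4, ∀ x ∈ Y, ∀ s, c s(x, shift (gen s) x) = π x s := by
    refine ⟨fun e => if h : ∃ (x : Conf) (s : S), x ∈ Y ∧ e = s(x, shift (gen s) x) then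
      π h.choose h.choose_spec.choose else 0, ?_⟩
    intro x hx s
    have h : ∃ (x' : Conf) (s' : S), x' ∈ Y ∧
        s(x, shift (gen s) x) = s(x', shift (gen s') x') := ⟨x, s, hx, rfl⟩
    simp only [dif_pos h]
    have h1 := h.choose_spec.choose_spec.1
    have h2 := h.choose_spec.choose_spec.2
    generalize h.choose_spec.choose = s' at h1 h2 ⊢
    generalize h.choose = x' at h1 h2 ⊢
    rw [Sym2.eq_iff] at h2
    rcases h2 with ⟨h3, h4⟩ | ⟨h3, h4⟩
    · rw [← h3] at h4 ⊢
      rw [ne_gen (hYG _ hx).1 h4]
    · have h5 : s = sinv s' := by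
        apply ne_gen (hYG _ hx).1
        rw [h4, h3, shift_sinv]
      have h6 := (hYG _ h1).2 s'
      rw [h5, h3, h6]
  obtain ⟨c, key⟩ := key
  refine ⟨Y, c, fun x hx => (hYG x hx).1, hY, hYae, hYs, ?_, ?_⟩
  · intro x hx y z hy hz hyz
    obtain ⟨s, rfl⟩ := exists_gen_of_adj hy
    obtain ⟨t, rfl⟩ := exists_gen_of_adj hz
    rw [key x hx s, key x hx t]
    intro h
    apply hyz
    rw [(π x).injective h]
  · intro γ hγ i
    have hγ' : ∃ s : S, γ = gen s := by
      rcases hγ with h | h
      · exact ⟨(0, true), h⟩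
      · exact ⟨(1, true), h⟩
    obtain ⟨s, rfl⟩ := hγ'
    have : {x : Conf | x ∈ Y ∧ c s(x, shift (gen s) x) = i} = Y ∩ {x : Conf | π x s = i} := by
      ext x
      constructor
      · rintro ⟨h1, h2⟩
        exact ⟨h1, (key x h1 s).symm.trans h2⟩
      · rintro ⟨h1, h2⟩
        exact ⟨h1, (key x h1 s).trans h2⟩
    rw [this]
    exact hY.inter (measurable_label hπ s (measurableSet_singleton i))

open Aux Pool.Agent.W_MP_ae868b_lc in
theorem result : IsLeast {k : ℕ | HasMeasurableEdgeColouring k} 4 := by
  refine ⟨exists_colouring, ?_⟩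
  rintro k ⟨Y, c, hYf, -, hY0, -, hprop, -⟩
  have hprob : IsProbabilityMeasure coinFlip := isPMP_coinCfg.prob
  have hne : Y.Nonempty := by
    by_contra h
    rw [Set.not_nonempty_iff_eq_empty] at h
    rw [h, Set.compl_empty, measure_univ] at hY0
    exact one_ne_zero hY0
  obtain ⟨x, hx⟩ := hne
  have hinj : Function.Injective fun s : S => c s(x, shift (gen s) x) := by
    intro s t hst
    by_contra hne
    refine hprop x hx _ _ (adj_gen (hYf hx) s) (adj_gen (hYf hx) t) ?_ hst
    exact fun h => hne (ne_gen (hYf hx) h)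
  have := Fintype.card_le_of_injective _ hinj
  simpa using this

end Pool.Agent.Results.MP_ae868b_lc.EdgeChromaticNumberFour
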